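import Pool.Agent.Helper84.LM.Defs

/-!
# EX7: a torus of similitudes with a relation is not determined by its commutant
-/

set_option autoImplicit false

open Polynomial

namespace Pool.Agent.Helper19.EX

open Pool.Agent.Helper84.LM (InfSim InLie polyFun)

section curve

variable {V : Type} [AddCommGroup V] [Module ℂ V]

theorem lin_mem' (l : Module.Dual ℂ (Module.End ℂ V)) :
    (fun g : Module.End ℂ V => l g) ∈ polyFun V := Algebra.subset_adjoin ⟨l, rfl⟩

/-- A polynomial function has the same derivative along two curves with the same tangent. -/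
theorem curve_deriv (X : Module.End ℂ V) {f : Module.End ℂ V → ℂ} (hf : f ∈ polyFun V)
    (c : ℂ → Module.End ℂ V) (hc0 : c 0 = 1)
    (hc : ∀ l : Module.Dual ℂ (Module.End ℂ V), HasDerivAt (fun t => l (c t)) (l X) 0) :
    ∃ d : ℂ, HasDerivAt (fun t : ℂ => f (1 + t • X)) d 0 ∧ HasDerivAt (fun t => f (c t)) d 0 := by
  induction hf using Algebra.adjoin_induction with
  | mem f hf =>
    obtain ⟨l, rfl⟩ := hf
    refine ⟨l X, ?_, hc l⟩
    simp only [map_add, map_smul, smul_eq_mul]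
    have h := ((hasDerivAt_id (0 : ℂ)).mul_const (l X)).const_add (l 1)
    simpa using h
  | algebraMap a => exact ⟨0, hasDerivAt_const _ _, hasDerivAt_const _ _⟩
  | add f h _ _ h1 h2 =>
    obtain ⟨d1, a1, b1⟩ := h1
    obtain ⟨d2, a2, b2⟩ := h2
    exact ⟨d1 + d2, a1.add a2, b1.add b2⟩
  | mul f h _ _ h1 h2 =>
    obtain ⟨d1, a1, b1⟩ := h1
    obtain ⟨d2, a2, b2⟩ := h2
    refine ⟨d1 * h 1 + f 1 * d2, ?_, ?_⟩
    · have h3 := a1.mul a2
      simp only [zero_smul, add_zero] at h3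
      exact h3
    · have h3 := b1.mul b2
      simp only [hc0] at h3
      exact h3

theorem inLie_of_curve {G : Subgroup (Module.End ℂ V)ˣ} (X : Module.End ℂ V)
    (c : ℂ → Module.End ℂ V) (hc0 : c 0 = 1)
    (hc : ∀ l : Module.Dual ℂ (Module.End ℂ V), HasDerivAt (fun t => l (c t)) (l X) 0)
    (hG : ∀ t, ∃ g ∈ G, ((g : (Module.End ℂ V)ˣ) : Module.End ℂ V) = c t) : InLie G X := by
  intro f hf h0
  obtain ⟨d, h1, h2⟩ := curve_deriv X hf c hc0 hc
  have h3 : (fun t => f (c t)) = fun _ => 0 := by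
    funext t
    obtain ⟨g, hg, hgt⟩ := hG t
    rw [← hgt]
    exact h0 g hg
  rw [h3] at h2
  rw [h1.deriv]
  exact h2.unique (hasDerivAt_const _ _)

theorem inLie_zero (G : Subgroup (Module.End ℂ V)ˣ) : InLie G 0 := by
  intro f _ _
  simp

end curve

section diag

variable {J : Type} [Fintype J] [DecidableEq J]

/-- The diagonal operators. -/
noncomputable def dg (J : Type) : (J → ℂ) →ₐ[ℂ] Module.End ℂ (J → ℂ) := Algebra.lmul ℂ (J → ℂ)

omit [Fintype J] [DecidableEq J] in
theorem dg_apply (t v : J → ℂ) (j : J) : dg J t v j = t j * v j := rfl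

omit [Fintype J] in
theorem dg_single (t : J → ℂ) (j : J) : dg J t (Pi.single j 1) = t j • Pi.single j 1 := by
  funext i
  rw [dg_apply, Pi.smul_apply, smul_eq_mul]
  by_cases h : i = j
  · subst h; rfl
  · rw [Pi.single_eq_of_ne h, mul_zero, mul_zero]

/-- the matrix entries -/
noncomputable def ent (i j : J) : Module.Dual ℂ (Module.End ℂ (J → ℂ)) :=
  (LinearMap.proj i).comp (LinearMap.applyₗ (Pi.single j 1 : J → ℂ))

omit [Fintype J] in
theorem ent_apply (i j : J) (g : Module.End ℂ (J → ℂ)) :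
    ent i j g = g (Pi.single j 1) i := rfl

omit [Fintype J] in
theorem ent_dg (i : J) (t : J → ℂ) : ent i i (dg J t) = t i := by
  rw [ent_apply, dg_apply, Pi.single_eq_same, mul_one]

theorem eq_dg_of {X : Module.End ℂ (J → ℂ)} (h : ∀ i j, i ≠ j → ent i j X = 0) :
    X = dg J (fun j => ent j j X) := by
  refine LinearMap.pi_ext' fun j => LinearMap.ext_ring ?_
  change X (Pi.single j 1) = dg J (fun j => ent j j X) (Pi.single j 1)
  funext i
  by_cases hij : i = j
  · subst hij
    rw [dg_apply, Pi.single_eq_same, mul_one]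
    rfl
  · rw [dg_apply, Pi.single_eq_of_ne hij, mul_zero]
    exact h i j hij

theorem lin_dg (l : Module.Dual ℂ (Module.End ℂ (J → ℂ))) (u : J → ℂ) :
    l (dg J u) = ∑ j, u j * l (dg J (Pi.single j 1)) := by
  have h1 : u = ∑ j, u j • (Pi.single j 1 : J → ℂ) := by
    funext i
    rw [Finset.sum_apply, Finset.sum_eq_single i]
    · rw [Pi.smul_apply, Pi.single_eq_same, smul_eq_mul, mul_one]
    · intro j _ hj
      rw [Pi.smul_apply, Pi.single_eq_of_ne hj.symm, smul_zero]
    · intro h; exact absurd (Finset.mem_univ i) h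
  conv_lhs => rw [h1]
  rw [map_sum, map_sum]
  refine Finset.sum_congr rfl fun j _ => ?_
  rw [map_smul, map_smul, smul_eq_mul]

/-- the one parameter groups -/
theorem exp_curve (y : J → ℂ) (l : Module.Dual ℂ (Module.End ℂ (J → ℂ))) :
    HasDerivAt (fun t : ℂ => l (dg J (fun j => Complex.exp (t * y j)))) (l (dg J y)) 0 := by
  have h1 : (fun t : ℂ => l (dg J (fun j => Complex.exp (t * y j)))) =
      fun t : ℂ => ∑ j, Complex.exp (t * y j) * l (dg J (Pi.single j 1)) := by
    funext t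
    rw [lin_dg]
  rw [h1, lin_dg l y]
  refine HasDerivAt.fun_sum fun j _ => HasDerivAt.mul_const ?_ _
  have h2 : HasDerivAt (fun t : ℂ => t * y j) (1 * y j) 0 := (hasDerivAt_id (0 : ℂ)).mul_const _
  have h3 := h2.cexp
  simpa using h3

omit [DecidableEq J] in
theorem dg_semisimple (t : J → ℂ) : (dg J t).IsSemisimple := by
  classical
  refine Module.End.isSemisimple_of_squarefree_aeval_eq_zero
    (p := ∏ w ∈ Finset.univ.image t, (X - C w)) ?_ ?_
  · refine Separable.squarefree ?_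
    exact separable_prod_X_sub_C_iff'.2 fun x _ y _ h => h
  · rw [aeval_algHom_apply]
    have h1 : aeval t (∏ w ∈ Finset.univ.image t, (X - C w)) = 0 := by
      funext j
      have h2 : (aeval t (∏ w ∈ Finset.univ.image t, (X - C w))) j =
          aeval (t j) (∏ w ∈ Finset.univ.image t, (X - C w)) := by
        have := aeval_algHom_apply (Pi.evalAlgHom ℂ (fun _ : J => ℂ) j) t
          (∏ w ∈ Finset.univ.image t, (X - C w))
        exact this.symm
      rw [h2, map_prod, Pi.zero_apply]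
      refine Finset.prod_eq_zero (Finset.mem_image_of_mem t (Finset.mem_univ j)) ?_
      simp
    rw [h1, map_zero]

/-- A diagonal operator with distinct entries generates all diagonal operators. -/
theorem exists_aeval {y : J → ℂ} (hy : Function.Injective y) (x : J → ℂ) :
    ∃ p : ℂ[X], aeval (dg J y) p = dg J x := by
  refine ⟨Lagrange.interpolate Finset.univ y x, ?_⟩
  rw [aeval_algHom_apply]
  congr 1
  funext j
  have h2 : (aeval y (Lagrange.interpolate Finset.univ y x)) j =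
      aeval (y j) (Lagrange.interpolate Finset.univ y x) :=
    (aeval_algHom_apply (Pi.evalAlgHom ℂ (fun _ : J => ℂ) j) y _).symm
  rw [h2, coe_aeval_eq_eval]
  exact Lagrange.eval_interpolate_at_node _ (hy.injOn) (Finset.mem_univ j)

theorem charpoly_dg (t : J → ℂ) : (dg J t).charpoly = ∏ j, (X - C (t j)) := by
  have h1 : dg J t = Matrix.toLin' (Matrix.diagonal t) := by
    refine LinearMap.ext fun v => funext fun j => ?_
    rw [Matrix.toLin'_apply, Matrix.mulVec_diagonal, dg_apply]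
  rw [h1, Matrix.charpoly_toLin', Matrix.charpoly_diagonal]

end diag


section main

variable {ι : Type} [Fintype ι] [DecidableEq ι]

/-- The standard alternating form. -/
noncomputable def sform (ι : Type) [Fintype ι] : LinearMap.BilinForm ℂ (ι ⊕ ι → ℂ) :=
  LinearMap.mk₂ ℂ (fun x y => ∑ s, (x (Sum.inl s) * y (Sum.inr s) - x (Sum.inr s) * y (Sum.inl s)))
    (fun x x' y => by
      rw [← Finset.sum_add_distrib]
      exact Finset.sum_congr rfl fun s _ => by simp only [Pi.add_apply]; ring)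
    (fun c x y => by
      rw [smul_eq_mul, Finset.mul_sum]
      exact Finset.sum_congr rfl fun s _ => by simp only [Pi.smul_apply, smul_eq_mul]; ring)
    (fun x y y' => by
      rw [← Finset.sum_add_distrib]
      exact Finset.sum_congr rfl fun s _ => by simp only [Pi.add_apply]; ring)
    (fun c x y => by
      rw [smul_eq_mul, Finset.mul_sum]
      exact Finset.sum_congr rfl fun s _ => by simp only [Pi.smul_apply, smul_eq_mul]; ring)

omit [DecidableEq ι] in
theorem sform_apply (x y : ι ⊕ ι → ℂ) : sform ι x y =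
    ∑ s, (x (Sum.inl s) * y (Sum.inr s) - x (Sum.inr s) * y (Sum.inl s)) := rfl

omit [DecidableEq ι] in
theorem sform_alt (x : ι ⊕ ι → ℂ) : sform ι x x = 0 := by
  rw [sform_apply]
  exact Finset.sum_eq_zero fun s _ => by ring

theorem sform_nondeg : (sform ι).Nondegenerate := by
  have h1 : ∀ x : ι ⊕ ι → ℂ, (∀ y, sform ι x y = 0) → x = 0 := by
    intro x hx
    funext j
    rcases j with s | s
    · have h := hx (Pi.single (Sum.inr s) 1)
      rw [sform_apply, Finset.sum_eq_single s] at h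
      · simpa using h
      · intro t _ hts
        rw [Pi.single_eq_of_ne (by simpa using hts), Pi.single_eq_of_ne (by simp)]
        ring
      · intro h'; exact absurd (Finset.mem_univ s) h'
    · have h := hx (Pi.single (Sum.inl s) 1)
      rw [sform_apply, Finset.sum_eq_single s] at h
      · simpa using h
      · intro t _ hts
        rw [Pi.single_eq_of_ne (by simp), Pi.single_eq_of_ne (by simpa using hts)]
        ring
      · intro h'; exact absurd (Finset.mem_univ s) h'
  have hskew : ∀ x y, sform ι x y = - sform ι y x := by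
    intro x y
    rw [sform_apply, sform_apply, ← Finset.sum_neg_distrib]
    exact Finset.sum_congr rfl fun s _ => by ring
  refine ⟨h1, fun y hy => h1 y fun x => ?_⟩
  rw [hskew, hy x, neg_zero]

omit [DecidableEq ι] in
theorem sform_dg {t : ι ⊕ ι → ℂ} {c : ℂ} (h : ∀ s, t (Sum.inl s) * t (Sum.inr s) = c)
    (x y : ι ⊕ ι → ℂ) : sform ι (dg _ t x) (dg _ t y) = c * sform ι x y := by
  rw [sform_apply, sform_apply, Finset.mul_sum]
  refine Finset.sum_congr rfl fun s _ => ?_
  simp only [dg_apply]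
  rw [← h s]
  ring

/-- The torus. -/
def TG (a b : ι) : Subgroup (Module.End ℂ (ι ⊕ ι → ℂ))ˣ where
  carrier := {g | ∃ t : ι ⊕ ι → ℂ, ∃ c : ℂ, (g : Module.End ℂ (ι ⊕ ι → ℂ)) = dg _ t ∧ c ≠ 0 ∧
    (∀ s, t (Sum.inl s) * t (Sum.inr s) = c) ∧ t (Sum.inl a) ^ 3 = c * t (Sum.inl b)}
  mul_mem' := by
    rintro g g' ⟨t, c, h1, h2, h3, h4⟩ ⟨t', c', h1', h2', h3', h4'⟩
    refine ⟨t * t', c * c', ?_, mul_ne_zero h2 h2', fun s => ?_, ?_⟩
    · rw [Units.val_mul, h1, h1', map_mul]
    · rw [Pi.mul_apply, Pi.mul_apply, ← h3 s, ← h3' s]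
      ring
    · rw [Pi.mul_apply, Pi.mul_apply, mul_pow, h4, h4']
      ring
  one_mem' := ⟨1, 1, by rw [Units.val_one, map_one], one_ne_zero, fun s => by simp, by simp⟩
  inv_mem' := by
    rintro g ⟨t, c, h1, h2, h3, h4⟩
    have ht : ∀ j, t j ≠ 0 := by
      intro j hj
      rcases j with s | s
      · exact h2 (by rw [← h3 s, hj, zero_mul])
      · exact h2 (by rw [← h3 s, hj, mul_zero])
    refine ⟨t⁻¹, c⁻¹, ?_, inv_ne_zero h2, fun s => ?_, ?_⟩
    · refine Units.inv_eq_of_mul_eq_one_right ?_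
      rw [h1, ← map_mul]
      have : t * t⁻¹ = 1 := by
        funext j
        rw [Pi.mul_apply, Pi.inv_apply, mul_inv_cancel₀ (ht j), Pi.one_apply]
      rw [this, map_one]
    · rw [Pi.inv_apply, Pi.inv_apply, ← mul_inv, h3 s]
    · rw [Pi.inv_apply, Pi.inv_apply, inv_pow, h4, mul_inv]

omit [Fintype ι] [DecidableEq ι] in
theorem mem_TG {a b : ι} {g : (Module.End ℂ (ι ⊕ ι → ℂ))ˣ} : g ∈ TG a b ↔
    ∃ t : ι ⊕ ι → ℂ, ∃ c : ℂ, (g : Module.End ℂ (ι ⊕ ι → ℂ)) = dg _ t ∧ c ≠ 0 ∧
    (∀ s, t (Sum.inl s) * t (Sum.inr s) = c) ∧ t (Sum.inl a) ^ 3 = c * t (Sum.inl b) := Iff.rfl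

omit [DecidableEq ι] in
/-- Integers: `1` at `a`, `3` at `b`, at least `4` elsewhere. -/
theorem exists_weights (a b : ι) (hab : a ≠ b) : ∃ m : ι → ℕ, Function.Injective m ∧
    (∀ s, 1 ≤ m s) ∧ m a = 1 ∧ m b = 3 := by
  classical
  let e := Fintype.equivFin ι
  refine ⟨fun s => if s = a then 1 else if s = b then 3 else (e s : ℕ) + 4, ?_, ?_, ?_, ?_⟩
  · intro s t hst
    simp only at hst
    by_cases hsa : s = a
    · by_cases hta : t = a
      · rw [hsa, hta]
      · exfalso
        rw [if_pos hsa, if_neg hta] at hst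
        split_ifs at hst <;> omega
    · by_cases hta : t = a
      · exfalso
        rw [if_neg hsa, if_pos hta] at hst
        split_ifs at hst <;> omega
      · rw [if_neg hsa, if_neg hta] at hst
        by_cases hsb : s = b
        · by_cases htb : t = b
          · rw [hsb, htb]
          · exfalso
            rw [if_pos hsb, if_neg htb] at hst
            omega
        · by_cases htb : t = b
          · exfalso
            rw [if_neg hsb, if_pos htb] at hst
            omega
          · rw [if_neg hsb, if_neg htb] at hst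
            exact e.injective (Fin.ext (by omega))
  · intro s
    simp only
    split_ifs <;> omega
  · simp
  · simp [hab.symm]

theorem TG_ent {a b : ι} {X : Module.End ℂ (ι ⊕ ι → ℂ)} (hX : InLie (TG a b) X) :
    X = dg _ (fun j => ent j j X) := by
  refine eq_dg_of fun i j hij => ?_
  have h1 := hX (fun g => ent i j g) (lin_mem' _) (by
    rintro g ⟨t, c, h1, -⟩
    rw [h1, ent_apply, dg_apply, Pi.single_eq_of_ne hij, mul_zero])
  have h2 : HasDerivAt (fun t : ℂ => ent i j (1 + t • X)) (ent i j X) 0 := by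
    simp only [map_add, map_smul, smul_eq_mul]
    have h := ((hasDerivAt_id (0 : ℂ)).mul_const (ent i j X)).const_add (ent i j 1)
    simpa using h
  rw [h2.deriv] at h1
  exact h1

omit [Fintype ι] in
theorem TG_rel {a b : ι} {X : Module.End ℂ (ι ⊕ ι → ℂ)} (hX : InLie (TG a b) X) :
    3 * ent (Sum.inl a) (Sum.inl a) X = 2 * ent (Sum.inl b) (Sum.inl b) X +
      ent (Sum.inr b) (Sum.inr b) X := by
  set f : Module.End ℂ (ι ⊕ ι → ℂ) → ℂ :=
    (fun g => ent (Sum.inl a) (Sum.inl a) g) ^ 3 -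
      (fun g => ent (Sum.inl b) (Sum.inl b) g) ^ 2 * (fun g => ent (Sum.inr b) (Sum.inr b) g)
    with hf
  have hfm : f ∈ polyFun (ι ⊕ ι → ℂ) :=
    sub_mem (pow_mem (lin_mem' _) 3) (mul_mem (pow_mem (lin_mem' _) 2) (lin_mem' _))
  have h1 := hX f hfm (by
    rintro g ⟨t, c, h1, h2, h3, h4⟩
    simp only [hf, Pi.sub_apply, Pi.mul_apply, Pi.pow_apply]
    rw [h1, ent_dg, ent_dg, ent_dg, h4, ← h3 b]
    ring)
  have hl : ∀ i : ι ⊕ ι, HasDerivAt (fun t : ℂ => ent i i (1 + t • X)) (ent i i X) 0 := by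
    intro i
    simp only [map_add, map_smul, smul_eq_mul]
    have h := ((hasDerivAt_id (0 : ℂ)).mul_const (ent i i X)).const_add (ent i i 1)
    simpa using h
  have h1' : ∀ i : ι ⊕ ι, ent i i (1 + (0 : ℂ) • X) = 1 := by
    intro i
    rw [zero_smul, add_zero, ent_apply, Module.End.one_apply, Pi.single_eq_same]
  have h2 := ((hl (Sum.inl a)).pow 3).sub (((hl (Sum.inl b)).pow 2).mul (hl (Sum.inr b)))
  have h3 : (fun t : ℂ => f (1 + t • X)) = ((fun t : ℂ => ent (Sum.inl a) (Sum.inl a) (1 + t • X)) ^ 3 -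
      (fun t : ℂ => ent (Sum.inl b) (Sum.inl b) (1 + t • X)) ^ 2 *
        fun t : ℂ => ent (Sum.inr b) (Sum.inr b) (1 + t • X)) := by
    funext t
    rfl
  rw [h3, h2.deriv] at h1
  simp only [h1', Pi.pow_apply] at h1
  norm_num at h1
  linear_combination h1

theorem core_aux (a b : ι) (hab : a ≠ b) :
    ∃ Y₀ : Module.End ℂ (ι ⊕ ι → ℂ), InLie (TG a b) Y₀ ∧
      ∀ x : ι ⊕ ι → ℂ, ∃ p : ℂ[X], aeval Y₀ p = dg _ x := by
  obtain ⟨m, hm, hm1, hma, hmb⟩ := exists_weights a b hab
  set y : ι ⊕ ι → ℂ := Sum.elim (fun s => (m s : ℂ)) (fun s => -(m s : ℂ)) with hy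
  have hinj : Function.Injective y := by
    have h0 : ∀ s t : ι, (m s : ℂ) ≠ -(m t : ℂ) := by
      intro s t h
      have h2 : ((m s + m t : ℕ) : ℂ) = 0 := by
        push_cast
        rw [h]
        ring
      have h3 : m s + m t = 0 := by exact_mod_cast h2
      have := hm1 s
      omega
    intro i j hij
    rcases i with s | s <;> rcases j with t | t
    · rw [hy, Sum.elim_inl, Sum.elim_inl] at hij
      rw [hm (by exact_mod_cast hij : m s = m t)]
    · exact absurd hij (h0 s t)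
    · exact absurd hij.symm (h0 t s)
    · rw [hy, Sum.elim_inr, Sum.elim_inr, neg_inj] at hij
      rw [hm (by exact_mod_cast hij : m s = m t)]
  refine ⟨dg _ y, ?_, exists_aeval hinj⟩
  have hu : ∀ t : ℂ, dg _ (fun j => Complex.exp (t * y j)) * dg _ (fun j => Complex.exp (-(t * y j))) =
      (1 : Module.End ℂ (ι ⊕ ι → ℂ)) := by
    intro t
    rw [← map_mul]
    have : ((fun j => Complex.exp (t * y j)) * fun j => Complex.exp (-(t * y j))) = (1 : ι ⊕ ι → ℂ) := by
      funext j
      rw [Pi.mul_apply, ← Complex.exp_add, add_neg_cancel, Complex.exp_zero, Pi.one_apply]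
    rw [this, map_one]
  have hu' : ∀ t : ℂ, dg _ (fun j => Complex.exp (-(t * y j))) * dg _ (fun j => Complex.exp (t * y j)) =
      (1 : Module.End ℂ (ι ⊕ ι → ℂ)) := by
    intro t
    rw [← map_mul, mul_comm, map_mul]
    exact hu t
  refine inLie_of_curve _ (fun t => dg _ (fun j => Complex.exp (t * y j))) ?_
    (fun l => exp_curve y l) fun t => ?_
  · simp only [zero_mul, Complex.exp_zero]
    exact map_one (dg (ι ⊕ ι))
  · refine ⟨⟨dg _ (fun j => Complex.exp (t * y j)), dg _ (fun j => Complex.exp (-(t * y j))),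
      hu t, hu' t⟩, ?_, rfl⟩
    refine ⟨_, 1, rfl, one_ne_zero, fun s => ?_, ?_⟩
    · rw [← Complex.exp_add]
      have : t * y (Sum.inl s) + t * y (Sum.inr s) = 0 := by
        rw [hy, Sum.elim_inl, Sum.elim_inr]
        ring
      rw [this, Complex.exp_zero]
    · rw [one_mul, ← Complex.exp_nat_mul]
      congr 1
      rw [hy, Sum.elim_inl, Sum.elim_inl, hma, hmb]
      push_cast
      ring

/-- E7: the linear algebra. -/
theorem core (q : ℂ) (hq : q ≠ 0) (z : ι → ℂ)
    (hz : ∀ s, z s ≠ 0) (a b : ι) (hab : a ≠ b) (hrel : z a ^ 3 = q * z b) :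
    ∃ (ψ : LinearMap.BilinForm ℂ (ι ⊕ ι → ℂ)) (G : Subgroup (Module.End ℂ (ι ⊕ ι → ℂ))ˣ)
      (γ : (Module.End ℂ (ι ⊕ ι → ℂ))ˣ) (B : Module.End ℂ (ι ⊕ ι → ℂ)),
      ψ.Nondegenerate ∧ (∀ x, ψ x x = 0) ∧ γ ∈ G ∧
      (∀ g ∈ G, ∃ c : ℂ, ∀ x y, ψ ((g : Module.End ℂ (ι ⊕ ι → ℂ)) x)
        ((g : Module.End ℂ (ι ⊕ ι → ℂ)) y) = c * ψ x y) ∧
      (∀ U : Submodule ℂ (ι ⊕ ι → ℂ), (∀ X, InLie G X → ∀ u ∈ U, X u ∈ U) →
        ∃ U' : Submodule ℂ (ι ⊕ ι → ℂ), (∀ X, InLie G X → ∀ u ∈ U', X u ∈ U') ∧ IsCompl U U') ∧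
      (γ : Module.End ℂ (ι ⊕ ι → ℂ)).IsSemisimple ∧
      (∀ x y, ψ ((γ : Module.End ℂ (ι ⊕ ι → ℂ)) x) ((γ : Module.End ℂ (ι ⊕ ι → ℂ)) y) =
        q * ψ x y) ∧
      LinearMap.charpoly (γ : Module.End ℂ (ι ⊕ ι → ℂ)) =
        ∏ s, ((X - C (z s)) * (X - C (q / z s))) ∧
      (∀ s, (γ : Module.End ℂ (ι ⊕ ι → ℂ)) (Pi.single s 1) =
        (Sum.elim z (fun t => q / z t) s) • Pi.single s 1) ∧
      InLie G 0 ∧ ¬ InLie G B ∧ InfSim ψ B ∧
      ∀ Y : Module.End ℂ (ι ⊕ ι → ℂ), (∀ Z, InLie G Z → Y * Z = Z * Y) → B * Y = Y * B := by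
  obtain ⟨Y₀, hY₀, hgen⟩ := core_aux a b hab
  set t : ι ⊕ ι → ℂ := Sum.elim z (fun s => q / z s) with ht
  have htp : ∀ s, t (Sum.inl s) * t (Sum.inr s) = q := fun s => by
    rw [ht, Sum.elim_inl, Sum.elim_inr, mul_div_cancel₀ _ (hz s)]
  have ht0 : ∀ j, t j ≠ 0 := by
    intro j hj
    rcases j with s | s
    · exact hq (by rw [← htp s, hj, zero_mul])
    · exact hq (by rw [← htp s, hj, mul_zero])
  have hti : t * t⁻¹ = 1 := by
    funext j
    rw [Pi.mul_apply, Pi.inv_apply, mul_inv_cancel₀ (ht0 j), Pi.one_apply]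
  set γ : (Module.End ℂ (ι ⊕ ι → ℂ))ˣ := ⟨dg _ t, dg _ t⁻¹, by rw [← map_mul, hti, map_one],
    by rw [← map_mul, mul_comm, hti, map_one]⟩ with hγ
  have hγv : (γ : Module.End ℂ (ι ⊕ ι → ℂ)) = dg _ t := rfl
  set β : ι ⊕ ι → ℂ := Sum.elim (Pi.single a 1) (-Pi.single a 1) with hβ
  have hβp : ∀ s, β (Sum.inl s) + β (Sum.inr s) = 0 := fun s => by
    rw [hβ, Sum.elim_inl, Sum.elim_inr, Pi.neg_apply, add_neg_cancel]
  refine ⟨sform ι, TG a b, γ, dg _ β, sform_nondeg, sform_alt, ?_, ?_, ?_, ?_, ?_, ?_, ?_,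
    inLie_zero _, ?_, ?_, ?_⟩
  · exact ⟨t, q, rfl, hq, htp, by rw [ht, Sum.elim_inl, Sum.elim_inl, hrel]⟩
  · rintro g ⟨u, c, h1, h2, h3, h4⟩
    refine ⟨c, fun x y => ?_⟩
    rw [h1]
    exact sform_dg h3 x y
  · intro U hU
    obtain ⟨y, hy⟩ : ∃ y, Y₀ = dg _ y := ⟨_, TG_ent hY₀⟩
    have hss : Y₀.IsSemisimple := by
      rw [hy]
      exact dg_semisimple y
    obtain ⟨U', hU', hc⟩ := (Module.End.isSemisimple_iff.1 hss) U (by
      rw [Module.End.mem_invtSubmodule_iff_forall_mem_of_mem]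
      exact hU Y₀ hY₀)
    rw [Module.End.mem_invtSubmodule_iff_forall_mem_of_mem] at hU'
    refine ⟨U', fun X hX u hu => ?_, hc⟩
    obtain ⟨p, hp⟩ := hgen (fun j => ent j j X)
    rw [TG_ent hX, ← hp]
    clear hp
    induction p using Polynomial.induction_on' with
    | add p r h1 h2 =>
      rw [map_add, LinearMap.add_apply]
      exact U'.add_mem h1 h2
    | monomial n c =>
      rw [aeval_monomial]
      have h1 : ∀ n : ℕ, (Y₀ ^ n) u ∈ U' := by
        intro n
        induction n with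
        | zero => simpa using hu
        | succ n ih =>
          rw [pow_succ', Module.End.mul_apply]
          exact hU' _ ih
      rw [Module.End.mul_apply, Module.algebraMap_end_apply]
      exact U'.smul_mem _ (h1 n)
  · rw [hγv]
    exact dg_semisimple t
  · intro x y
    rw [hγv]
    exact sform_dg htp x y
  · rw [hγv, charpoly_dg, Fintype.prod_sum_type, ← Finset.prod_mul_distrib]
    refine Finset.prod_congr rfl fun s _ => ?_
    rw [ht, Sum.elim_inl, Sum.elim_inr]
  · intro s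
    rw [hγv]
    exact dg_single t s
  · intro hB
    have h1 := TG_rel hB
    rw [ent_dg, ent_dg, ent_dg, hβ, Sum.elim_inl, Sum.elim_inl, Sum.elim_inr, Pi.neg_apply,
      Pi.single_eq_same, Pi.single_eq_of_ne hab.symm] at h1
    norm_num at h1
  · refine ⟨0, fun x y => ?_⟩
    rw [zero_mul, sform_apply, sform_apply, ← Finset.sum_add_distrib]
    refine Finset.sum_eq_zero fun s _ => ?_
    simp only [dg_apply]
    have h1 : β (Sum.inr s) = - β (Sum.inl s) := by linear_combination hβp s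
    rw [h1]
    ring
  · intro Y hY
    obtain ⟨p, hp⟩ := hgen β
    rw [← hp]
    have h1 : Commute Y Y₀ := hY Y₀ hY₀
    clear hp
    induction p using Polynomial.induction_on' with
    | add p r h1 h2 => rw [map_add, add_mul, mul_add, h1, h2]
    | monomial n c =>
      rw [aeval_monomial]
      have h2 : Commute Y (algebraMap ℂ _ c) := (Algebra.commutes c Y).symm
      exact (h2.mul_right (h1.pow_right n)).eq.symm

end main

end Pool.Agent.Helper19.EX
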