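import Pool.Agent.Helper19.EX.Lower2
import Pool.Agent.Helper84.EXO.Exotic
import Pool.Agent.Helper84.EXO.Trace

/-!
# EXO: the exceptional share among the ordinary tuples, final form
-/

set_option autoImplicit false

open Polynomial

namespace Pool.Agent.Helper19.EX

open Pool.Agent.Helper84.AA
open Pool.Agent.Helper84.LR (RelLefschetz)
open Pool.Agent.Helper19.AAR (GoodR)

theorem ord_exotic : ∃ G : ℕ, ∀ q : ℕ, 16 ≤ q → ∀ p : ℕ, p.Prime → p ∣ q →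
    ∀ (k : ℕ) (g : Fin k → ℕ) (i : Fin k), G ≤ g i →
      (({h : Fin k → ℤ[X] | ∀ j, h j ∈ traceSet q (g j) ∧
        ¬ (p : ℤ) ∣ (h j).coeff 0}.ncard : ℕ) : ℝ) ≤ (q : ℝ) ^ (8 * g i) *
      (({h : Fin k → ℤ[X] | (∀ j, h j ∈ traceSet q (g j) ∧ ¬ (p : ℤ) ∣ (h j).coeff 0) ∧
        ¬ GoodR q h ∧ Exotic q (h i)}.ncard : ℕ) : ℝ) :=
  ord_exotic_of (fun _ hq => Pool.Agent.Helper84.EXO.isTrace_vv hq)
    (fun _ hq _ hu => Pool.Agent.Helper84.EXO.exotic_vv hq hu)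

theorem ord_lefschetz : ∃ G : ℕ, ∀ q : ℕ, 16 ≤ q → ∀ p : ℕ, p.Prime → p ∣ q →
    ∀ (k : ℕ) (g : Fin k → ℕ) (i : Fin k), G ≤ g i →
      (({h : Fin k → ℤ[X] | ∀ j, h j ∈ traceSet q (g j) ∧
        ¬ (p : ℤ) ∣ (h j).coeff 0}.ncard : ℕ) : ℝ) ≤ (q : ℝ) ^ (8 * g i) *
      (({h : Fin k → ℤ[X] | (∀ j, h j ∈ traceSet q (g j) ∧ ¬ (p : ℤ) ∣ (h j).coeff 0) ∧
        ¬ RelLefschetz q h}.ncard : ℕ) : ℝ) :=
  ord_lefschetz_of fun _ hq => Pool.Agent.Helper84.EXO.isTrace_vv hq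

end Pool.Agent.Helper19.EX
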