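import Pool.Agent.Helper19.XU.Final
import Pool.Agent.Helper33.EX.E5U
import Pool.Agent.Helper78.EX.E6
import Pool.Agent.Helper84.EX.E9
import Pool.Agent.Helper84.LR.Lift

/-!
# EX, XU: the two results
-/

set_option autoImplicit false

open Polynomial

namespace Pool.Agent.Helper19.EX

open Pool.Agent.Helper84.AA
open Pool.Agent.Helper84.LR (RelLefschetz relLefschetz_of)
open Pool.Agent.Helper19.AAR (GoodR splitF)

/-- There is a multiplicative relation between the complex roots of `frob q h` in which the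
exponents at some pair of roots `z` and `q / z` are different. -/
def Exotic (q : ℕ) (h : ℤ[X]) : Prop :=
  ∃ n : ℂ → ℤ, (∏ z ∈ ((frob q h).map (Int.castRingHom ℂ)).roots.toFinset, z ^ n z) = 1 ∧
    ∃ z ∈ ((frob q h).map (Int.castRingHom ℂ)).roots.toFinset, n z ≠ n (q / z)

theorem exotic_ww {q : ℕ} (hq : 2 ≤ q) {u : ℤ[X]} (hu : u.Monic) : Exotic q (ww q * u) :=
  Pool.Agent.Helper78.EX.exotic_aux hq hu

theorem not_goodR_of_exotic {q k : ℕ} {h : Fin k → ℤ[X]} {i : Fin k} (hi : Exotic q (h i))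
    (hd : 1 ≤ (h i).natDegree) : ¬ GoodR q h := by
  classical
  intro hg
  obtain ⟨n, h1, z, hz, hne⟩ := hi
  refine hne ?_
  have h2 := hg.2 1 one_ne_zero (fun j w => if j = i then n w else 0) 1 one_ne_zero
  have h3 : (∏ j, ∏ w ∈ ((frob q (h j)).map (Int.castRingHom ℂ)).roots.toFinset,
      w ^ (if j = i then n w else 0)) = 1 := by
    rw [Finset.prod_eq_single i]
    · simpa using h1
    · intro j _ hj
      refine Finset.prod_eq_one fun w _ => ?_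
      rw [if_neg hj, zpow_zero]
    · intro h'; exact absurd (Finset.mem_univ i) h'
  rw [h3] at h2
  have h4 := h2 (by rw [one_pow]; exact one_mem _) i (by
    rw [finrank_splitF_one]
    exact Nat.one_lt_two_pow (by omega)) z hz
  simpa using h4

theorem exotic_lower : ∃ G : ℕ, ∀ q : ℕ, 16 ≤ q → ∀ (k : ℕ) (g : Fin k → ℕ) (i : Fin k), G ≤ g i →
    (({h : Fin k → ℤ[X] | ∀ j, h j ∈ traceSet q (g j)}.ncard : ℕ) : ℝ) ≤
      (q : ℝ) ^ (7 * g i) * (({h : Fin k → ℤ[X] | (∀ j, h j ∈ traceSet q (g j)) ∧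
        ¬ GoodR q h ∧ Exotic q (h i)}.ncard : ℕ) : ℝ) := by
  obtain ⟨G, hG⟩ := share_lowerU
  refine ⟨max G 1, fun q hq k g i hi => (hG q hq k g i ((le_max_left _ _).trans hi)).trans ?_⟩
  refine mul_le_mul_of_nonneg_left ?_ (by positivity)
  have hfin : {h : Fin k → ℤ[X] | (∀ j, h j ∈ traceSet q (g j)) ∧
      ¬ GoodR q h ∧ Exotic q (h i)}.Finite := by
    refine Set.Finite.subset (s := Set.pi Set.univ fun j => traceSet q (g j)) ?_ ?_
    · exact Set.Finite.pi fun j => traceSet_finite q (g j)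
    · rintro h ⟨hh, -⟩ j -
      exact hh j
  have hsub : {h : Fin k → ℤ[X] | (∀ j, h j ∈ traceSet q (g j)) ∧
        ∃ u, IsTrace q (g i - 4) u ∧ h i = ww q * u} ⊆
      {h : Fin k → ℤ[X] | (∀ j, h j ∈ traceSet q (g j)) ∧ ¬ GoodR q h ∧ Exotic q (h i)} := by
    rintro h ⟨hh, u, hu, hi'⟩
    have he : Exotic q (h i) := by
      rw [hi']
      exact exotic_ww (by omega) hu.1
    refine ⟨hh, not_goodR_of_exotic he ?_, he⟩
    rw [(hh i).2.1]
    exact (le_max_right _ _).trans hi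
  exact_mod_cast Set.ncard_le_ncard hsub hfin

theorem lefschetz_lower : ∃ G : ℕ, ∀ q : ℕ, 16 ≤ q → ∀ (k : ℕ) (g : Fin k → ℕ) (i : Fin k),
    G ≤ g i →
    (({h : Fin k → ℤ[X] | ∀ j, h j ∈ traceSet q (g j)}.ncard : ℕ) : ℝ) ≤
      (q : ℝ) ^ (7 * g i) * (({h : Fin k → ℤ[X] | (∀ j, h j ∈ traceSet q (g j)) ∧
        ¬ RelLefschetz q h}.ncard : ℕ) : ℝ) := by
  obtain ⟨G, hG⟩ := share_lowerU
  refine ⟨G, fun q hq k g i hi => (hG q hq k g i hi).trans ?_⟩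
  refine mul_le_mul_of_nonneg_left ?_ (by positivity)
  have hfin : {h : Fin k → ℤ[X] | (∀ j, h j ∈ traceSet q (g j)) ∧ ¬ RelLefschetz q h}.Finite := by
    refine Set.Finite.subset (s := Set.pi Set.univ fun j => traceSet q (g j)) ?_ ?_
    · exact Set.Finite.pi fun j => traceSet_finite q (g j)
    · rintro h ⟨hh, -⟩ j -
      exact hh j
  have hsub : {h : Fin k → ℤ[X] | (∀ j, h j ∈ traceSet q (g j)) ∧
        ∃ u, IsTrace q (g i - 4) u ∧ h i = ww q * u} ⊆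
      {h : Fin k → ℤ[X] | (∀ j, h j ∈ traceSet q (g j)) ∧ ¬ RelLefschetz q h} := by
    rintro h ⟨hh, u, hu, hi'⟩
    exact ⟨hh, not_lefschetz (by omega) hh i hu hi'⟩
  exact_mod_cast Set.ncard_le_ncard hsub hfin

theorem lefschetz_upper : ∃ d : ℝ, 0 < d ∧ ∃ c : ℝ, 0 < c ∧ ∃ G : ℕ, ∀ q : ℕ, 16 ≤ q →
    ∀ p k : ℕ, p.Prime → ∀ m ≥ G, ∀ B : ℝ, 1 ≤ B → (k : ℝ) + B ≤ (m : ℝ) ^ (4 / 5 : ℝ) →
      ∀ g : Fin k → ℕ, (∀ i, m ≤ g i ∧ (g i : ℝ) ≤ (m : ℝ) ^ B) →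
      (({h : Fin k → ℤ[X] | (∀ i, h i ∈ traceSet q (g i)) ∧ ¬ RelLefschetz q h}.ncard : ℕ) : ℝ) ≤
        c * 4 ^ k * (q : ℝ) ^ (-(d * m / (k + B))) *
        (({h : Fin k → ℤ[X] | ∀ i, h i ∈ traceSet q (g i) ∧
          ¬ (p : ℤ) ∣ (h i).coeff 0}.ncard : ℕ) : ℝ) := by
  obtain ⟨d, hd, c, hc, G, hG⟩ := Pool.Agent.Helper86.XU.almost_uniformU
  refine ⟨d, hd, c, hc, max G 2, fun q hq p k hp m hm B hB1 hB2 g hg => ?_⟩
  have hm1 : G ≤ m := le_trans (le_max_left _ _) hm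
  have hm2 : 2 ≤ m := le_trans (le_max_right _ _) hm
  refine le_trans ?_ (hG q hq p k hp m hm1 B hB1 hB2 g hg)
  have hfin : {h : Fin k → ℤ[X] | (∀ i, h i ∈ traceSet q (g i)) ∧ ¬ GoodR q h}.Finite := by
    refine Set.Finite.subset (s := Set.pi Set.univ fun j => traceSet q (g j)) ?_ ?_
    · exact Set.Finite.pi fun j => traceSet_finite q (g j)
    · rintro h ⟨hh, -⟩ j -
      exact hh j
  have hsub : {h : Fin k → ℤ[X] | (∀ i, h i ∈ traceSet q (g i)) ∧ ¬ RelLefschetz q h} ⊆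
      {h : Fin k → ℤ[X] | (∀ i, h i ∈ traceSet q (g i)) ∧ ¬ GoodR q h} := by
    rintro h ⟨hh, hn⟩
    refine ⟨hh, fun hgood => hn (relLefschetz_of (by omega) h (fun i => (hh i).1)
      (fun i => ?_) hgood)⟩
    rw [(hh i).2.1]
    exact le_trans hm2 (hg i).1
  exact_mod_cast Set.ncard_le_ncard hsub hfin

end Pool.Agent.Helper19.EX
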