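import Pool.Agent.Helper19.EX.Lower
import Pool.Agent.Helper86.EXO.O3
import Pool.Agent.Helper84.EXO.Roots

/-!
# EXO: the exceptional share among the ordinary tuples
-/

set_option autoImplicit false

open Polynomial

namespace Pool.Agent.Helper19.EX

open Pool.Agent.Helper84.AA
open Pool.Agent.Helper84.LR (RelLefschetz)
open Pool.Agent.Helper19.AAR (GoodR)
open Pool.Agent.Helper84.EXO (vv not_lefschetz_vv)

theorem ord_exotic_of (h1 : ∀ q : ℕ, 16 ≤ q → IsTrace q 4 (vv q))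
    (h2 : ∀ q : ℕ, 2 ≤ q → ∀ u : ℤ[X], u.Monic → Exotic q (vv q * u)) :
    ∃ G : ℕ, ∀ q : ℕ, 16 ≤ q → ∀ p : ℕ, p.Prime → p ∣ q →
    ∀ (k : ℕ) (g : Fin k → ℕ) (i : Fin k), G ≤ g i →
      (({h : Fin k → ℤ[X] | ∀ j, h j ∈ traceSet q (g j) ∧
        ¬ (p : ℤ) ∣ (h j).coeff 0}.ncard : ℕ) : ℝ) ≤ (q : ℝ) ^ (8 * g i) *
      (({h : Fin k → ℤ[X] | (∀ j, h j ∈ traceSet q (g j) ∧ ¬ (p : ℤ) ∣ (h j).coeff 0) ∧
        ¬ GoodR q h ∧ Exotic q (h i)}.ncard : ℕ) : ℝ) := by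
  obtain ⟨G, hG⟩ := Pool.Agent.Helper86.EXO3.share_ord_of h1
  refine ⟨max G 1, fun q hq p hp hpq k g i hi =>
    (hG q hq p hp hpq k g i ((le_max_left _ _).trans hi)).trans ?_⟩
  refine mul_le_mul_of_nonneg_left ?_ (by positivity)
  have hfin : {h : Fin k → ℤ[X] | (∀ j, h j ∈ traceSet q (g j) ∧ ¬ (p : ℤ) ∣ (h j).coeff 0) ∧
      ¬ GoodR q h ∧ Exotic q (h i)}.Finite := by
    refine Set.Finite.subset (s := Set.pi Set.univ fun j => traceSet q (g j)) ?_ ?_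
    · exact Set.Finite.pi fun j => traceSet_finite q (g j)
    · rintro h ⟨hh, -⟩ j -
      exact (hh j).1
  have hsub : {h : Fin k → ℤ[X] | (∀ j, h j ∈ traceSet q (g j) ∧ ¬ (p : ℤ) ∣ (h j).coeff 0) ∧
        ∃ u, IsTrace q (g i - 4) u ∧ h i = vv q * u} ⊆
      {h : Fin k → ℤ[X] | (∀ j, h j ∈ traceSet q (g j) ∧ ¬ (p : ℤ) ∣ (h j).coeff 0) ∧
        ¬ GoodR q h ∧ Exotic q (h i)} := by
    rintro h ⟨hh, u, hu, hi'⟩
    have he : Exotic q (h i) := by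
      rw [hi']
      exact h2 q (by omega) u hu.1
    refine ⟨hh, not_goodR_of_exotic he ?_, he⟩
    rw [(hh i).1.2.1]
    exact (le_max_right _ _).trans hi
  exact_mod_cast Set.ncard_le_ncard hsub hfin

theorem ord_lefschetz_of (h1 : ∀ q : ℕ, 16 ≤ q → IsTrace q 4 (vv q)) :
    ∃ G : ℕ, ∀ q : ℕ, 16 ≤ q → ∀ p : ℕ, p.Prime → p ∣ q →
    ∀ (k : ℕ) (g : Fin k → ℕ) (i : Fin k), G ≤ g i →
      (({h : Fin k → ℤ[X] | ∀ j, h j ∈ traceSet q (g j) ∧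
        ¬ (p : ℤ) ∣ (h j).coeff 0}.ncard : ℕ) : ℝ) ≤ (q : ℝ) ^ (8 * g i) *
      (({h : Fin k → ℤ[X] | (∀ j, h j ∈ traceSet q (g j) ∧ ¬ (p : ℤ) ∣ (h j).coeff 0) ∧
        ¬ RelLefschetz q h}.ncard : ℕ) : ℝ) := by
  obtain ⟨G, hG⟩ := Pool.Agent.Helper86.EXO3.share_ord_of h1
  refine ⟨G, fun q hq p hp hpq k g i hi => (hG q hq p hp hpq k g i hi).trans ?_⟩
  refine mul_le_mul_of_nonneg_left ?_ (by positivity)
  have hfin : {h : Fin k → ℤ[X] | (∀ j, h j ∈ traceSet q (g j) ∧ ¬ (p : ℤ) ∣ (h j).coeff 0) ∧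
      ¬ RelLefschetz q h}.Finite := by
    refine Set.Finite.subset (s := Set.pi Set.univ fun j => traceSet q (g j)) ?_ ?_
    · exact Set.Finite.pi fun j => traceSet_finite q (g j)
    · rintro h ⟨hh, -⟩ j -
      exact (hh j).1
  have hsub : {h : Fin k → ℤ[X] | (∀ j, h j ∈ traceSet q (g j) ∧ ¬ (p : ℤ) ∣ (h j).coeff 0) ∧
        ∃ u, IsTrace q (g i - 4) u ∧ h i = vv q * u} ⊆
      {h : Fin k → ℤ[X] | (∀ j, h j ∈ traceSet q (g j) ∧ ¬ (p : ℤ) ∣ (h j).coeff 0) ∧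
        ¬ RelLefschetz q h} := by
    rintro h ⟨hh, u, hu, hi'⟩
    exact ⟨hh, not_lefschetz_vv (by omega) (fun j => (hh j).1.1) i hi'⟩
  exact_mod_cast Set.ncard_le_ncard hsub hfin

end Pool.Agent.Helper19.EX
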